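import Pool.Agent.Helper87.MQ.CountR
import Pool.Agent.Helper87.MQ.Two

/-!
# Density for one polynomial with rational coefficients of bounded height
-/

set_option autoImplicit false

namespace Pool.Agent.Helper87.RR

open MvPolynomial
open Pool.Agent.Helper87.MQ (ratArr ratArr_finite RatGood ratGood_of_locGood LocGood
  locGood_density rat_density_gen zero_density ndArr totalDegree_le_of_coeff coeff_eq_zero_of_gt
  norm_pole red_lift zeros_card_le)

/-- The exponents of the monomials of degree at most `d` in `m + 1` variables. -/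
abbrev Ex (m d : ℕ) : Type := {s : Fin (m + 1) →₀ ℕ // s.degree ≤ d}

/-- The polynomials over `ℚ` in `m + 1` variables of degree at most `d` all of whose coefficients
have height at most `B`. -/
def fbox (m d B : ℕ) : Set (MvPolynomial (Fin (m + 1)) ℚ) :=
  {f | f.totalDegree ≤ d ∧ ∀ s, |(coeff s f).num| ≤ (B : ℤ) ∧ (coeff s f).den ≤ B}

/-- The polynomial with given coefficients. -/
noncomputable def poly {m d : ℕ} (v : Ex m d → ℚ) : MvPolynomial (Fin (m + 1)) ℚ :=
  ∑ e : Ex m d, monomial (e : Fin (m + 1) →₀ ℕ) (v e)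

theorem coeff_poly {m d : ℕ} (v : Ex m d → ℚ) (e : Ex m d) :
    coeff (e : Fin (m + 1) →₀ ℕ) (poly v) = v e := by
  classical
  rw [poly, coeff_sum]
  simp only [coeff_monomial]
  rw [Finset.sum_eq_single e]
  · simp
  · intro b _ hb
    rw [if_neg]
    exact fun h => hb (Subtype.ext h)
  · simp

theorem coeff_poly_of_gt {m d : ℕ} (v : Ex m d → ℚ) {e : Fin (m + 1) →₀ ℕ}
    (he : ¬ e.degree ≤ d) : coeff e (poly v) = 0 := by
  classical
  rw [poly, coeff_sum]
  refine Finset.sum_eq_zero fun b _ => ?_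
  rw [coeff_monomial, if_neg]
  rintro rfl
  exact he b.2

theorem poly_injective (m d : ℕ) : Function.Injective (poly : (Ex m d → ℚ) → _) := by
  intro v w h
  funext e
  rw [← coeff_poly v e, h, coeff_poly]

theorem fbox_eq (m d B : ℕ) (hB : 1 ≤ B) : fbox m d B = poly '' ratArr (Ex m d) B := by
  ext f
  constructor
  · intro h
    refine ⟨fun k => coeff (k : Fin (m + 1) →₀ ℕ) f, fun k => h.2 _, ?_⟩
    ext e
    by_cases he : e.degree ≤ d
    · exact coeff_poly (fun k : Ex m d => coeff (k : Fin (m + 1) →₀ ℕ) f) ⟨e, he⟩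
    · rw [coeff_poly_of_gt _ he, coeff_eq_zero_of_gt f d h.1 e he]
  · rintro ⟨v, hv, rfl⟩
    refine ⟨totalDegree_le_of_coeff _ d fun s hs => coeff_poly_of_gt v hs, fun s => ?_⟩
    by_cases hs : s.degree ≤ d
    · have h1 := coeff_poly v ⟨s, hs⟩
      dsimp only at h1
      rw [h1]
      exact hv _
    · rw [coeff_poly_of_gt v hs]
      simpa using hB

/-- The local condition at `q`. -/
structure LocCond (q : ℕ) [Fact q.Prime] (m d : ℕ) (f : MvPolynomial (Fin (m + 1)) ℚ) : Prop where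
  pole : ‖((coeff (Finsupp.single (Fin.last m) d) f : ℚ) : ℚ_[q])‖ = (q : ℝ)
  int : ∀ e, e ≠ Finsupp.single (Fin.last m) d → ‖((coeff e f : ℚ) : ℚ_[q])‖ ≤ 1
  unit : ‖((coeff 0 f : ℚ) : ℚ_[q])‖ = 1

theorem norm_eq_one_of_red (q : ℕ) [hq : Fact q.Prime] (x : ℚ) {z : ℤ_[q]}
    (hz : (z : ℚ_[q]) = (x : ℚ_[q])) {c : ZMod q} (hzc : PadicInt.toZMod z = c) (hc : c ≠ 0) :
    ‖(x : ℚ_[q])‖ = 1 := by
  rw [← hz, ← PadicInt.norm_def]
  by_contra h
  have h1 : ‖z‖ < 1 := lt_of_le_of_ne (PadicInt.norm_le_one z) h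
  have h2 : z ∈ RingHom.ker (PadicInt.toZMod (p := q)) := by
    rw [PadicInt.ker_toZMod, IsLocalRing.mem_maximalIdeal, PadicInt.mem_nonunits]
    exact h1
  exact hc (hzc.symm.trans h2)

/-- The exponent of the constant term. -/
def e0 (m d : ℕ) : Ex m d := ⟨0, by simp⟩

/-- The exponent of the pure power of the last variable. -/
noncomputable def eL (m d : ℕ) : Ex m d := ⟨Finsupp.single (Fin.last m) d, by simp⟩

theorem e0_ne_eL (m d : ℕ) (hd : 1 ≤ d) : e0 m d ≠ eL m d := by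
  intro h
  have h1 := congrArg (fun t : Ex m d => (t : Fin (m + 1) →₀ ℕ) (Fin.last m)) h
  simp [e0, eL] at h1
  omega

theorem locCond_of_ratGood (m d q : ℕ) (hd : 1 ≤ d) [hq : Fact q.Prime]
    (BB : Finset (Ex m d → ZMod q)) (hBB : ∀ c ∉ BB, c (e0 m d) ≠ 0) (v : Ex m d → ℚ)
    (h : RatGood q (eL m d) BB v) : LocCond q m d (poly v) := by
  obtain ⟨h1, h2, h3, h4, c, hc, h5⟩ := h
  refine ⟨?_, ?_, ?_⟩
  · have := coeff_poly v (eL m d)
    rw [show ((eL m d : Ex m d) : Fin (m + 1) →₀ ℕ) = Finsupp.single (Fin.last m) d from rfl] at this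
    rw [this]
    exact norm_pole q _ h1 h2 h3
  · intro e he
    by_cases hed : e.degree ≤ d
    · have := coeff_poly v ⟨e, hed⟩
      dsimp only at this
      rw [this]
      refine Padic.norm_rat_le_one (h4 _ fun h => he ?_)
      exact congrArg Subtype.val h
    · rw [coeff_poly_of_gt v hed, Rat.cast_zero, norm_zero]
      exact zero_le_one
  · have := coeff_poly v (e0 m d)
    rw [show ((e0 m d : Ex m d) : Fin (m + 1) →₀ ℕ) = 0 from rfl] at this
    rw [this]
    obtain ⟨z, hz, hzc⟩ := red_lift q (v (e0 m d)) (h4 _ (e0_ne_eL m d hd)) _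
      (h5 _ (e0_ne_eL m d hd))
    exact norm_eq_one_of_red q _ hz hzc (hBB c hc)

/-- **Density.** One hundred percent of the polynomials satisfy the local condition at some prime of
a given set of primes with divergent sum of inverses, and a given coefficient is not zero. -/
theorem rr_density (m d : ℕ) (hd : 1 ≤ d)
    (Pri : Set ℕ) (hdiv : ¬ Summable (fun q : Pri => (1 : ℝ) / (q : ℕ))) (hPri : ∀ q ∈ Pri, q.Prime)
    (e₁ : Fin (m + 1) →₀ ℕ) (he₁ : e₁.degree ≤ d) (ε : ℝ) (hε : 0 < ε) :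
    ∃ K : ℕ, ∀ B : ℕ, K ≤ B → (fbox m d B).Finite ∧
      (1 - ε) * ((fbox m d B).ncard : ℝ) ≤
        (({f ∈ fbox m d B | coeff e₁ f ≠ 0 ∧
          ∃ q ∈ Pri, ∃ _ : Fact q.Prime, LocCond q m d f}).ncard : ℝ) := by
  classical
  set n := Fintype.card (Ex m d) with hn
  obtain ⟨P, K₁, hP, h₁⟩ := rat_density_gen (J := Ex m d) ((1 / 2 : ℝ) ^ (n + 2)) (by positivity)
    Pri hdiv hPri 2 (ε / 2) (by positivity)
  obtain ⟨K₄, h₄⟩ := zero_density (X (⟨e₁, he₁⟩ : Ex m d) : MvPolynomial (Ex m d) ℚ)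
    (X_ne_zero _) (ε / 2) (by positivity)
  refine ⟨max K₁ (max K₄ 1), ?_⟩
  intro B hB
  have hB1 : K₁ ≤ B := (le_max_left _ _).trans hB
  have hB4 : K₄ ≤ B := (le_max_left _ _).trans ((le_max_right _ _).trans hB)
  have hB5 : 1 ≤ B := (le_max_right _ _).trans ((le_max_right _ _).trans hB)
  have hfin : (fbox m d B).Finite := by
    rw [fbox_eq m d B hB5]
    exact (ratArr_finite B).image _
  refine ⟨hfin, ?_⟩
  set BB : ∀ q : ℕ, [Fact q.Prime] → Finset (Ex m d → ZMod q) := fun q _ =>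
    Finset.univ.filter fun c : Ex m d → ZMod q =>
      eval c (X (e0 m d) : MvPolynomial (Ex m d) (ZMod q)) = 0 with hBB
  have b₁ : (({v ∈ ratArr (Ex m d) B | ¬ ∃ q ∈ P, ∃ _ : Fact q.Prime,
      RatGood q (eL m d) (BB q) v} : Set (Ex m d → ℚ)).ncard : ℝ) ≤
        ε / 2 * ((ratArr (Ex m d) B).ncard : ℝ) := by
    set GE : ∀ q : ℕ, Finset (Ex m d → ZMod (q ^ 2) × ZMod (q ^ 2)) := fun q =>
      if hq : q.Prime then
        haveI : Fact q.Prime := ⟨hq⟩
        Finset.univ.filter (LocGood q (eL m d) (BB q)) else ∅ with hGE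
    have b := h₁ GE (by
      intro q hq
      haveI hF : Fact q.Prime := ⟨(hP q hq).2.1⟩
      rw [hGE]
      dsimp only
      rw [dif_pos (hP q hq).2.1]
      refine locGood_density q (eL m d) (BB q) 1 (hP q hq).2.2 ?_
      have h2 := zeros_card_le q (X (e0 m d) : MvPolynomial (Ex m d) (ZMod q)) (X_ne_zero _)
      rw [totalDegree_X] at h2
      exact h2) B hB1
    refine le_trans ?_ b
    have hsub : {v ∈ ratArr (Ex m d) B | ¬ ∃ q ∈ P, ∃ _ : Fact q.Prime,
        RatGood q (eL m d) (BB q) v} ⊆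
        {v ∈ ratArr (Ex m d) B | ¬ ∃ q ∈ P, ndArr q v ∈ GE q} := by
      rintro v ⟨hv1, hv2⟩
      refine ⟨hv1, ?_⟩
      rintro ⟨q, hq, hv3⟩
      apply hv2
      haveI hF : Fact q.Prime := ⟨(hP q hq).2.1⟩
      refine ⟨q, hq, hF, ?_⟩
      apply ratGood_of_locGood
      rw [hGE] at hv3
      dsimp only at hv3
      rw [dif_pos (hP q hq).2.1, Finset.mem_filter] at hv3
      exact hv3.2
    exact_mod_cast Set.ncard_le_ncard hsub ((ratArr_finite B).subset fun v hv => hv.1)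
  have b₄ := h₄ B hB4
  set X₁ : Set (Ex m d → ℚ) :=
    {v ∈ ratArr (Ex m d) B | ¬ ∃ q ∈ P, ∃ _ : Fact q.Prime, RatGood q (eL m d) (BB q) v} with hX₁
  set X₄ : Set (Ex m d → ℚ) := {v ∈ ratArr (Ex m d) B |
    eval v (X (⟨e₁, he₁⟩ : Ex m d) : MvPolynomial (Ex m d) ℚ) = 0} with hX₄
  have hXfin : (X₁ ∪ X₄).Finite := by
    refine (ratArr_finite (J := Ex m d) B).subset ?_
    rintro v (hv | hv) <;> exact hv.1
  have hXcard : ((X₁ ∪ X₄).ncard : ℝ) ≤ ε * ((ratArr (Ex m d) B).ncard : ℝ) := by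
    have e2 : ((X₁ ∪ X₄).ncard : ℝ) ≤ (X₁.ncard : ℝ) + (X₄.ncard : ℝ) := by
      exact_mod_cast Set.ncard_union_le _ _
    linarith
  have h2 : (fbox m d B).ncard = (ratArr (Ex m d) B).ncard := by
    rw [fbox_eq m d B hB5]
    exact Set.ncard_image_of_injective _ (poly_injective m d)
  set G : Set (MvPolynomial (Fin (m + 1)) ℚ) :=
    {f ∈ fbox m d B | coeff e₁ f ≠ 0 ∧
      ∃ q ∈ Pri, ∃ _ : Fact q.Prime, LocCond q m d f} with hG
  have hcover : fbox m d B \ G ⊆ poly '' (X₁ ∪ X₄) := by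
    rintro f ⟨hf, hfG⟩
    have hf' := hf
    rw [fbox_eq m d B hB5] at hf'
    obtain ⟨v, hv, rfl⟩ := hf'
    refine ⟨v, ?_, rfl⟩
    by_contra hcon
    simp only [Set.mem_union, not_or] at hcon
    obtain ⟨n₁, n₄⟩ := hcon
    have g₁ : ∃ q ∈ P, ∃ _ : Fact q.Prime, RatGood q (eL m d) (BB q) v := by
      by_contra h
      exact n₁ ⟨hv, h⟩
    have g₄ : v ⟨e₁, he₁⟩ ≠ 0 := fun h => n₄ ⟨hv, by rw [eval_X]; exact h⟩
    obtain ⟨q, hq, hF, gq⟩ := g₁
    apply hfG
    refine ⟨hf, ?_, q, (hP q hq).1, hF, locCond_of_ratGood m d q hd (BB q) ?_ v gq⟩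
    · have := coeff_poly v ⟨e₁, he₁⟩
      dsimp only at this
      rw [this]
      exact g₄
    · intro c hc h0
      apply hc
      rw [hBB]
      refine Finset.mem_filter.2 ⟨Finset.mem_univ _, ?_⟩
      rw [eval_X]
      exact h0
  have hbadle : ((fbox m d B \ G).ncard : ℝ) ≤ ε * ((fbox m d B).ncard : ℝ) := by
    rw [h2]
    refine le_trans ?_ hXcard
    have e1 := Set.ncard_le_ncard hcover (hXfin.image _)
    have e2 := Set.ncard_image_le (f := (poly : (Ex m d → ℚ) → _)) hXfin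
    exact_mod_cast e1.trans e2
  have hsum : (fbox m d B \ G).ncard + G.ncard = (fbox m d B).ncard :=
    Set.ncard_sdiff_add_ncard_of_subset (fun f hf => hf.1) hfin
  have hsum' : ((fbox m d B \ G).ncard : ℝ) + (G.ncard : ℝ) = ((fbox m d B).ncard : ℝ) := by
    exact_mod_cast hsum
  linarith

end Pool.Agent.Helper87.RR
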