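import Pool.Agent.Helper87.RR.Density
import Pool.Agent.Helper86.RR.Esc
import Pool.Agent.Helper87.MQ.Down
import Pool.Agent.Helper87.MQ.FieldEmb

/-!
# Nonlinear recurrences: one hundred percent of the polynomials
-/

set_option autoImplicit false

namespace Pool.Agent.Helper87.RR

open MvPolynomial
open Pool.Agent.Helper26.RR (sh sh_last sh_castSucc)
open Pool.Agent.Helper86.MQ (pm)
open Pool.Agent.Helper87.MQ (toC toQp exists_down exists_field_emb totalDegree_le_of_coeff
  coeff_eq_zero_of_gt)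
open Pool.Agent.Helper87.DMLP (primesFor not_summable_primesFor prime_of_mem_primesFor)

theorem eval_bind_iterate {R : Type*} [CommRing R] {σ : Type*} (φ : σ → MvPolynomial σ R)
    (k : ℕ) (x : σ → R) (G : MvPolynomial σ R) :
    eval x ((bind₁ φ)^[k] G) = eval ((pm φ)^[k] x) G := by
  induction k generalizing G with
  | zero => rfl
  | succ k ih =>
    rw [Function.iterate_succ_apply, ih, Function.iterate_succ_apply']
    set y := (pm φ)^[k] x
    have h1 : eval y (bind₁ φ G) = eval (fun i => eval y (φ i)) G := by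
      have := MvPolynomial.eval₂Hom_bind₁ (RingHom.id R) y φ G
      exact this
    exact h1

theorem finite_of_shift {R : Set ℕ} (k : ℕ) (h : {n | n + k ∈ R}.Finite) : R.Finite := by
  refine ((Finset.range k).finite_toSet.union (h.image (fun n => n + k))).subset ?_
  intro n hn
  by_cases hk : n < k
  · exact Or.inl (by simpa using hk)
  · right
    refine ⟨n - k, ?_, by simp only; omega⟩
    have e : n - k + k = n := by omega
    change n - k + k ∈ R
    rwa [e]

theorem map_sh {R S : Type*} [CommRing R] [CommRing S] (φ : R →+* S) {m : ℕ}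
    (f : MvPolynomial (Fin (m + 1)) R) :
    (fun i => MvPolynomial.map φ (sh f i)) = sh (MvPolynomial.map φ f) := by
  funext i
  refine Fin.lastCases ?_ (fun i => ?_) i
  · rw [sh_last, sh_last]
  · rw [sh_castSucc, sh_castSucc, map_X]

/-- The conclusion of the termination theorem. -/
def Term (m d : ℕ) (K : Type) [Field K] : Prop :=
  ∀ f : MvPolynomial (Fin (m + 1)) K, f.totalDegree ≤ d →
    coeff (Finsupp.single (Fin.last m) d) f ≠ 0 →
    coeff (Finsupp.single 0 1 + Finsupp.single (Fin.last m) (d - 1)) f ≠ 0 →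
    ∀ F : MvPolynomial (Fin (m + 1)) K, F ≠ 0 →
      ∃ k, coeff (Finsupp.single (Fin.last m) ((bind₁ (sh f))^[k] F).totalDegree)
        ((bind₁ (sh f))^[k] F) ≠ 0

theorem finite_of_locCond {q : ℕ} [hq : Fact q.Prime] {m d : ℕ} (hd : 2 ≤ d)
    (hT : Term m d ℚ_[q]) {f : MvPolynomial (Fin (m + 1)) ℚ} (hf : f.totalDegree ≤ d)
    (hc : LocCond q m d f)
    (h1 : coeff (Finsupp.single 0 1 + Finsupp.single (Fin.last m) (d - 1)) f ≠ 0)
    (G : MvPolynomial (Fin (m + 1)) ℚ_[q]) (hG : G ≠ 0) (x : Fin (m + 1) → ℚ_[q]) :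
    {n | eval ((pm (toQp q (sh f)))^[n] x) G = 0}.Finite := by
  set g : MvPolynomial (Fin (m + 1)) ℚ_[q] := MvPolynomial.map (algebraMap ℚ ℚ_[q]) f with hg
  have hcoef : ∀ e, coeff e g = ((coeff e f : ℚ) : ℚ_[q]) := by
    intro e
    rw [hg, coeff_map]
    exact eq_ratCast (algebraMap ℚ ℚ_[q]) _
  have hΦ : toQp q (sh f) = sh g := map_sh _ f
  have hdeg : g.totalDegree ≤ d := by
    apply totalDegree_le_of_coeff
    intro s hs
    rw [hcoef, coeff_eq_zero_of_gt f d hf s hs, Rat.cast_zero]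
  have hok : Pool.Agent.Helper86.RR.Ok q m d 1 g :=
    { r1 := le_rfl
      rd := by omega
      deg := hdeg
      s := by rw [hcoef, hc.pole, pow_one]
      int := fun e he => by rw [hcoef]; exact hc.int e he
      zero := by rw [hcoef, hc.unit] }
  have hq0 : (0 : ℝ) < q := by exact_mod_cast hq.out.pos
  obtain ⟨k, hk⟩ := hT g hdeg (by
    intro h0
    have := hok.s
    rw [h0, norm_zero, pow_one] at this
    linarith) (by
    rw [hcoef]
    exact_mod_cast h1) G hG
  have h2 := hok.finite_zero x hk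
  rw [hΦ]
  refine finite_of_shift k (h2.subset fun n hn => ?_)
  change eval ((pm (sh g))^[n] x) ((bind₁ (sh g))^[k] G) = 0
  rw [eval_bind_iterate, ← Function.iterate_add_apply, add_comm k n]
  exact hn

/-- **Main theorem.** -/
theorem rr_main (m d : ℕ) (hd : 2 ≤ d) (hT : ∀ (q : ℕ) [Fact q.Prime], Term m d ℚ_[q])
    (A : Finset ℂ) (ε : ℝ) (hε : 0 < ε) :
    ∃ K : ℕ, ∀ B : ℕ, K ≤ B → (fbox m d B).Finite ∧
      (1 - ε) * ((fbox m d B).ncard : ℝ) ≤
        (({f ∈ fbox m d B |
          ∀ α : Fin (m + 1) → ℂ, (∀ i, α i ∈ Subfield.closure (A : Set ℂ)) →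
            ∀ F : MvPolynomial (Fin (m + 1)) ℂ, F ≠ 0 →
              {n | eval ((pm (toC (sh f)))^[n] α) F = 0}.Finite}).ncard : ℝ) := by
  have he : (Finsupp.single 0 1 + Finsupp.single (Fin.last m) (d - 1) :
      Fin (m + 1) →₀ ℕ).degree ≤ d := by
    rw [map_add, Finsupp.degree_single, Finsupp.degree_single]
    omega
  obtain ⟨K, hK⟩ := rr_density m d (by omega) (primesFor A) (not_summable_primesFor A)
    (prime_of_mem_primesFor A) _ he ε hε
  refine ⟨K, fun B hB => ?_⟩
  obtain ⟨hfin, hcard⟩ := hK B hB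
  refine ⟨hfin, hcard.trans ?_⟩
  refine Nat.cast_le.2 (Set.ncard_le_ncard ?_ (hfin.subset fun f hf => hf.1))
  rintro f ⟨hf, h1, q, hqA, hF, hc⟩
  refine ⟨hf, fun α hα F hF0 => ?_⟩
  obtain ⟨_, ⟨e⟩⟩ := exists_field_emb A q hqA
  obtain ⟨G, hG0, -, hG⟩ := exists_down (Subfield.closure (A : Set ℂ)) F hF0
  have h2 := finite_of_locCond hd (hT q) hf.1 hc h1 (MvPolynomial.map e G)
    (fun h => hG0 (map_injective e e.injective (by rw [h, map_zero])))
    (fun i => e ⟨α i, hα i⟩)
  exact h2.subset fun n hn => hG q e (sh f) (fun i => ⟨α i, hα i⟩) n hn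

/-- The orbit of the shift map is the sequence of the windows. -/
theorem pm_toC_iterate {m : ℕ} (f : MvPolynomial (Fin (m + 1)) ℚ) (a : ℕ → ℂ)
    (ha : ∀ n, a (n + (m + 1)) = aeval (fun i : Fin (m + 1) => a (n + i)) f) (n : ℕ) :
    (pm (toC (sh f)))^[n] (fun i => a i) = fun i : Fin (m + 1) => a (n + i) := by
  induction n with
  | zero =>
    funext i
    rw [Nat.zero_add]
    rfl
  | succ n ih =>
    rw [Function.iterate_succ_apply', ih]
    funext i
    have h1 : toC (sh f) = sh (MvPolynomial.map (algebraMap ℚ ℂ) f) := map_sh _ f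
    rw [h1]
    refine Fin.lastCases ?_ (fun i => ?_) i
    · rw [pm, sh_last, eval_map, Fin.val_last, add_right_comm, add_assoc n m 1, ha n, aeval_def]
    · rw [pm, sh_castSucc, eval_X, Fin.val_succ, Fin.val_castSucc]
      congr 1
      omega

end Pool.Agent.Helper87.RR
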